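import Pool.Agent.Q285.FinMod.E

/-!
# The polynomial Freiman-Ruzsa conjecture is a statement on dense subsets of finite groups

`PFR` (in `Pool.Agent.Y806.DF`) is Q1 of the problem, word for word, for all abelian groups of the
universe `u`; `DensePFR ε` (in `Pool.Agent.Q285.FinMod`) is Q1 restricted to the sets `A` in a FINITE
abelian group `Γ` with `|Γ| ≤ exp (8000000 ε⁻² (log 2K)^(1+ε)) |A|`.

Proof. `A` is covered by polynomially many translates of a coset progression `t + {∑ c_i v_i} + H` of
rank `k = O(log 2K)` and quasi-polynomial volume. Represent the elements of the popular translate by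
coefficient vectors which are shortest for the quadratic form `∑ (c_i / L_i)²`. They are in the
Voronoi cell `V` of the lattice `Λ` of the relations modulo `H`, and `256^k` translates of `V / 4`
cover it; on a translate of `V / 4` no nonzero relation can occur among sums of two elements. So a
part `A'` of polynomial density lifts to a set of the same additive structure in a box of `ℤ^k × H`
and from there to `∏ ℤ/(4 N_i + 1) × H`. A coset progression `ψ(D) + H'` that contains a large part
of the image is pulled back by the convex set of the `(u, y)` with `u ∈ 2 D` and `y` in the inverse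
image of `H'` (a lattice times a finite group) such that `ψ(u) + y` is in the box, and the volume is
adjusted by the theorem that the bound for the dimension comes for free (`Pool.Agent.Y806.DF`).
-/

set_option autoImplicit false

namespace Pool.Agent.Results.MP_dd2a7c_co.DenseFiniteGroups

open Finset
open scoped Pointwise
open Pool.Agent.Y806.DF
open Pool.Agent.Q285.FinMod

universe u

/-- For every `ε ∈ (0, 1]`:

(1) **Q1 (for all abelian groups) is equivalent to Q1 for the sets `A` of density at least
`exp (-8000000 ε⁻² (log 2K)^(1+ε))` in finite abelian groups.**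

(2) In every abelian group a finite nonempty set `A` with `|A + A| ≤ K |A|` contains a subset `A'`
of polynomial density, `|A| ≤ (2K)^(200000/ε) |A'|`, which is Freiman isomorphic (of order 2) to a
subset of a finite abelian group of order at most
`exp (8000000 ε⁻² (log 2K)^(1+ε)) |A'|`. -/
theorem result (ε : ℝ) (hε0 : 0 < ε) (hε1 : ε ≤ 1) :
    (PFR.{u} ↔ DensePFR.{u} ε) ∧
    (∀ (Γ : Type u) [AddCommGroup Γ] [DecidableEq Γ] (K : ℝ) (A : Finset Γ), A.Nonempty →
      ((A + A).card : ℝ) ≤ K * A.card →
      ∃ A' ⊆ A, (A.card : ℝ) ≤ (2 * K) ^ (200000 / ε) * A'.card ∧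
        ∃ (M : Type u) (_ : AddCommGroup M), Finite M ∧
          (Nat.card M : ℝ) ≤
            Real.exp (8000000 / ε ^ 2 * Real.log (2 * K) ^ (1 + ε)) * A'.card ∧
          ∃ (S : Set M) (f : Γ → M), IsAddFreimanIso 2 (A' : Set Γ) S f) := by
  refine ⟨pfr_iff hε0 hε1, ?_⟩
  intro Γ _ _ K A hA hK
  obtain ⟨k, v, N, H, t, x, A', -, hHf, hsub, -, hAA', hvol, hL⟩ := lift hA hK hε0 hε1
  have hfinM : Finite (Grp N H) := by
    have : ∀ i : Fin k, NeZero (4 * N i + 1) := fun i => ⟨by omega⟩
    infer_instance
  refine ⟨A', hsub, hAA', Grp N H, inferInstance, hfinM, ?_,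
    (fun b => red N H (zz v H t x b)) '' (A' : Set Γ), fun b => red N H (zz v H t x b), ?_⟩
  · rw [card_grp, Nat.cast_mul]
    exact hvol
  · rw [isAddFreimanIso_two]
    refine ⟨(model_inj hL).bijOn_image, ?_⟩
    intro a ha b hb c hc d hd
    exact model hL (Finset.mem_coe.1 ha) (Finset.mem_coe.1 hb) (Finset.mem_coe.1 hc)
      (Finset.mem_coe.1 hd)

end Pool.Agent.Results.MP_dd2a7c_co.DenseFiniteGroups
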