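import Pool.Agent.Q189.FD.Few
import Pool.Agent.TH414.UD.Q1
import Pool.Agent.TH414.Dil.Final

/-!
# Polynomial Freiman–Ruzsa for sets with few small sums of dilates (MP_dd2a7c_co, partial)

`V` is a vector space over a finite field `F` with `q` elements, of characteristic `p`, and `A ⊆ V`
is finite and nonempty. Q1 of the problem is about sets with `|A + A| ≤ K |A|`. The starting file
`UniformDilates` proves its conclusion for the sets with `|A + n A| ≤ K |A|` for *all* natural
numbers `n`. Here the hypothesis is made only for the elements `s` of a set `S ⊆ F` with more than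
`q ^ (1 / 2 ^ t)` elements, so for any small power `q ^ δ` of `q`; the exponents depend only on `t`,
that is on `δ`, and not on `p`, `q`, `V`, `S`. A special case are the sets with `|A + A| ≤ K |A|`
that are mapped to themselves by the multiplications by more than `q ^ (1 / 2 ^ t)` elements of `F`,
for instance by the elements of a subgroup of `F^×` of such an order.

The proof: the elements `c` of `F` with `|A + c A| ≤ K ^ a |A|` are closed under sums, products,
negatives and inverses up to a controlled loss in `a` (Ruzsa's triangle inequality and covering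
lemma, Plünnecke's inequality). Let `X ⊆ F` consist of such elements. If each element of the prime
field is a quotient `(x - y) / (z - w)` of differences of elements of `X`, then we are done.
Otherwise there is such a quotient `ξ` in the prime field for which `ξ + 1` is not a quotient, and
then `x + (ξ + 1) y`, `x, y ∈ X`, takes `|X|²` values (as in the work of Glibichuk and Konyagin on
sums of products in prime fields). After `t` steps there would be more than `q` elements.
The last step is the theorem of the starting files.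
-/

set_option autoImplicit false
open scoped Pointwise

universe u v

namespace Pool.Agent.Results.MP_dd2a7c_co.FewDilates

/-- `A` is covered by at most `N` cosets of a finite subgroup of order at most `M`. -/
def CoveredByCosets {V : Type v} [AddCommGroup V] (A : Finset V) (M N : ℝ) : Prop :=
  ∃ (H : AddSubgroup V) (T : Finset V), Finite H ∧ (Nat.card H : ℝ) ≤ M ∧ (T.card : ℝ) ≤ N ∧
    ∀ a ∈ A, ∃ t ∈ T, a - t ∈ H

/-- `A` is covered by at most `N` translates of a centred convex coset progression of dimension
`1` and volume at most `|A|`. -/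
def CoveredByProgression {V : Type v} [AddCommGroup V] (A : Finset V) (N : ℝ) : Prop :=
  ∃ (B : Set (Fin 1 → ℝ)) (ψ : (Fin 1 → ℤ) →+ V) (H : AddSubgroup V) (T : Finset V),
    Convex ℝ B ∧ IsCompact B ∧ (interior B).Nonempty ∧ (∀ x ∈ B, -x ∈ B) ∧ Finite H ∧
    {x : Fin 1 → ℤ | (fun i => (x i : ℝ)) ∈ B}.ncard * Nat.card H ≤ A.card ∧
    (T.card : ℝ) ≤ N ∧
    ∀ a ∈ A, ∃ t ∈ T, ∃ x : Fin 1 → ℤ, (fun i => (x i : ℝ)) ∈ B ∧ ∃ h ∈ H, a = t + ψ x + h

/-- The conclusion, with a parameter `L`; `p` is the characteristic. -/
def Structured {V : Type v} [AddCommGroup V] (p : ℕ) (A : Finset V) (L : ℝ) : Prop :=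
  CoveredByCosets A (L ^ 5404 * A.card) (L ^ 5406) ∧ CoveredByProgression A (8 * L ^ 10812) ∧
  (16 * L ^ 4 < p → CoveredByCosets A (2 * L * A.card) L ∧ CoveredByProgression A (8 * L ^ 2))

theorem structured {F : Type u} [Field F] (p : ℕ) [CharP F p] {V : Type v}
    [AddCommGroup V] [Module F V] [DecidableEq V] (A : Finset V) (hA : A.Nonempty) (L : ℝ)
    (hp : p.Prime) (hL : 1 ≤ L)
    (hdil : ∀ n : ℕ, ((A + A.image (fun a => n • a)).card : ℝ) ≤ L * (A.card : ℝ)) :
    Structured p A L := by
  rename_i d
  have hd : d = (fun a b => Classical.propDecidable (a = b)) := Subsingleton.elim _ _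
  subst hd
  obtain ⟨⟨H, T, h1, h2, h3, h4⟩, h5⟩ := Pool.Agent.TH414.UD.q1A A hA L hdil
  refine ⟨⟨H, T, h1, h2, h3, h4⟩, h5, fun hlarge => ?_⟩
  have hΓ : ∀ l : ℕ, l.Prime → (l : ℝ) ≤ 16 * L ^ 4 → ∀ x : V, l • x = 0 → x = 0 := by
    intro l hl hlL x hx
    have hne : (l : F) ≠ 0 := by
      rw [Ne, CharP.cast_eq_zero_iff F p l]
      intro hdvd
      have : l = p := ((Nat.prime_dvd_prime_iff_eq hp hl).1 hdvd).symm
      subst this
      linarith
    rw [← Nat.cast_smul_eq_nsmul F] at hx
    exact (smul_eq_zero.1 hx).resolve_left hne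
  obtain ⟨U, hfin, hc, hU⟩ := Pool.Agent.TH414.Dil.structure_thm A hA L hL hΓ hdil
  obtain ⟨X, hX, hcov⟩ := Pool.Agent.TH414.Dil.reps U A
  exact ⟨⟨U, X, hfin, hU, by rw [hX]; exact hc, hcov⟩,
    Pool.Agent.TH414.Dil.q1_form A hA L hL U hc hU⟩

/-- Let `V` be a vector space over a finite field `F` with `q` elements, of characteristic `p`, and
let `S ⊆ F` be a set with more than `q ^ (1 / 2 ^ t)` elements.

(1) Let `A ⊆ V` be finite and nonempty with `|A + s A| ≤ K |A|` for all `s` in `S`, and let
`L = K ^ (11 * 6 ^ t)`. Then `|A + n A| ≤ L |A|` for all natural numbers `n`; `A` is covered by at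
most `L ^ 5406` cosets of a subgroup of order at most `L ^ 5404 |A|`, and by at most `8 L ^ 10812`
translates of a centred convex coset progression of dimension `1` and volume at most `|A|`; and if
`p > 16 L ^ 4`, then `A` is covered by at most `L` cosets of a subgroup of order at most `2 L |A|`,
and by at most `8 L ^ 2` translates of a centred convex coset progression of dimension `1` and
volume at most `|A|`.

(2) The same is true of the sets `A` with `|A + A| ≤ K |A|` and `s A ⊆ A` for all `s` in `S`. -/
theorem result (F : Type u) [Field F] [Fintype F] (p : ℕ) [CharP F p] (V : Type v)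
    [AddCommGroup V] [Module F V] [DecidableEq V] (S : Finset F) (t : ℕ)
    (hS : Fintype.card F < S.card ^ (2 ^ t)) :
    (∀ (A : Finset V) (K : ℝ), A.Nonempty →
      (∀ s ∈ S, ((A + A.image (fun a => s • a)).card : ℝ) ≤ K * A.card) →
      (∀ n : ℕ, ((A + A.image (fun a => n • a)).card : ℝ) ≤ K ^ (11 * 6 ^ t) * A.card) ∧
      Structured p A (K ^ (11 * 6 ^ t))) ∧
    (∀ (A : Finset V) (K : ℝ), A.Nonempty → ((A + A).card : ℝ) ≤ K * A.card →
      (∀ s ∈ S, ∀ a ∈ A, s • a ∈ A) →
      (∀ n : ℕ, ((A + A.image (fun a => n • a)).card : ℝ) ≤ K ^ (11 * 6 ^ t) * A.card) ∧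
      Structured p A (K ^ (11 * 6 ^ t))) := by
  have hp : p.Prime := (CharP.char_is_prime_or_zero F p).resolve_right (CharP.char_ne_zero_of_finite F p)
  have key : ∀ (A : Finset V) (K : ℝ), A.Nonempty →
      (∀ s ∈ S, ((A + A.image (fun a => s • a)).card : ℝ) ≤ K * A.card) →
      (∀ n : ℕ, ((A + A.image (fun a => n • a)).card : ℝ) ≤ K ^ (11 * 6 ^ t) * A.card) ∧
      Structured p A (K ^ (11 * 6 ^ t)) := by
    intro A K hA h
    obtain ⟨hK, hall⟩ := Q189.FD.main S t hS A hA K h
    exact ⟨hall, structured (F := F) p A hA _ hp (one_le_pow₀ hK) hall⟩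
  refine ⟨key, fun A K hA hAA hinv => key A K hA fun s hs => ?_⟩
  refine le_trans ?_ hAA
  have hsub : A.image (fun a => s • a) ⊆ A := by
    intro x hx
    obtain ⟨a, ha, rfl⟩ := Finset.mem_image.1 hx
    exact hinv s hs a ha
  exact_mod_cast Finset.card_le_card (Finset.add_subset_add_left hsub)

end Pool.Agent.Results.MP_dd2a7c_co.FewDilates
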