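import Mathlib
import Pool.Agent.Q167.MF.Four
set_option autoImplicit false

/-!
# The polynomial Freiman-Ruzsa conjecture for monotone families over `ℤ^n`

`D ⊆ ℤ^n × G`, `n` arbitrary, is a monotone family of subsets of the abelian group `G`
(`IsMonotoneFamily`): the fibre over `y` contains the fibre over `x` if `y` is coordinatewise between
`0` and `x`. `Model K A D φ g`: `|D + D| ≤ K |D|`, `|D| ≤ K |A|`, and at least `|A| / K` elements of `A`
are in `g + φ(D)` for a homomorphism `φ : ℤ^n × G → Γ` (not injective in general).

`Covered R N A` is the conclusion of Q1: `A` is covered by at most `N` translates of a centred convex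
coset progression of dimension at most `R` and volume at most `|A|`. `Structured L F` is its relaxed
form: at most `L` translates, dimension at most `log₂ L`, volume at most `L |F|`.

(1) Every `A` with `|A + A| ≤ K |A|` which has a model in `ℤ^n × G`, `m G = 0`, satisfies the
conclusion of Q1, with constants that depend on `m` only, and nothing is assumed on the fibres.
(2) The same for arbitrary `G` if the fibre over `0` is structured; then `A` is again structured, so
that the construction can be iterated.

Proof. By Plünnecke's inequality `D` is dense in `S × F`, where `S` is its projection to `ℤ^n` and `F`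
the fibre over `0`, and both have small doubling. `S` is coordinatewise star-shaped; the starting
theorem on such sets gives a box of rank `O(log K)`, and `F` is covered by the hypothesis or by
Marton's conjecture for groups of exponent `m` (starting theorem). The theorem that the bound for the
dimension and the volume come for free (starting development `Y806.DF`) finishes the proof.
-/

universe u v

namespace Pool.Agent.Results.MP_dd2a7c_co.MonotoneFamilies

open Pool.Agent.Q167.MF Pool.Agent.Y806.DF
open scoped Pointwise

theorem result :
    (∀ (Γ : Type u) [AddCommGroup Γ] [DecidableEq Γ] (G : Type v) [AddCommGroup G] [DecidableEq G]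
      (m : ℕ), 0 < m → (∀ x : G, m • x = 0) →
      ∀ (K : ℝ) (A : Finset Γ), A.Nonempty → ((A + A).card : ℝ) ≤ K * A.card →
      ∀ (n : ℕ) (D : Finset ((Fin n → ℤ) × G)) (φ : ((Fin n → ℤ) × G) →+ Γ) (g : Γ),
        Model K A D φ g →
        Covered (200000000 * (Nat.log 2 m + 1) * Real.log (2 * K))
          ((2 * K) ^ (2000000000 * (Nat.log 2 m + 1))) A) ∧
    (∀ (Γ : Type u) [AddCommGroup Γ] [DecidableEq Γ] (G : Type v) [AddCommGroup G] [DecidableEq G]
      (K L : ℝ) (A : Finset Γ), A.Nonempty → ((A + A).card : ℝ) ≤ K * A.card →
      ∀ (n : ℕ) (D : Finset ((Fin n → ℤ) × G)) (φ : ((Fin n → ℤ) × G) →+ Γ) (g : Γ),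
        Model K A D φ g → Structured L (fibre D) →
        Covered (500 * Real.log (2048 * K ^ 31 * L ^ 2)) (5000 * (1024 * K ^ 31 * L ^ 2) ^ 5000) A ∧
        Structured (5000 * (2048 * K ^ 31 * L ^ 2) ^ 5000) A) :=
  ⟨fun _ _ _ _ _ _ _ hm htor _ _ hA hK _ _ _ _ hM => torsion hm htor hA hK hM,
    fun _ _ _ _ _ _ _ _ _ hA hK _ _ _ _ hM hL => model hA hK hM hL⟩

end Pool.Agent.Results.MP_dd2a7c_co.MonotoneFamilies
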