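import Pool.Agent.W860.OB.Gap

/-!
# Freiman-Ruzsa theorem in all abelian groups with polynomially many translates

The theorem is `W860.PC.poly_cover` together with its version for coset progressions,
`W860.OB.gap_cover`.
-/

set_option autoImplicit false
open scoped Pointwise

namespace Pool.Agent.Results.MP_dd2a7c_co.PolynomialTranslates

/-- **Q1 with a loss in the volume only**, in every abelian group and for every `ε ∈ (0, 1]`:
a finite nonempty set `A` with `|A + A| ≤ K |A|` is covered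

(1) by `(2K)^(30000/ε)` translates of a centred convex coset progression of dimension at most
`(30000/ε) log 2K` and volume at most `exp ((30000/ε) (log 2K)^(1+ε)) |A|`;

(2) by `(2K)^(30000/ε)` translates of a coset progression `{∑ c_i v_i : |c_i| ≤ L_i} + H` (a box)
of rank at most `(30000/ε) log 2K` and volume
`|H| ∏ (2 L_i + 1) ≤ exp ((4000000/ε²) (log 2K)^(1+ε)) |A|`. -/
theorem result {Γ : Type*} [AddCommGroup Γ] [DecidableEq Γ] (ε : ℝ) (hε0 : 0 < ε) (hε1 : ε ≤ 1)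
    (K : ℝ) (A : Finset Γ) (hA : A.Nonempty) (hK : ((A + A).card : ℝ) ≤ K * (A.card : ℝ)) :
    (∃ (d : ℕ) (B : Set (Fin d → ℝ)) (ψ : (Fin d → ℤ) →+ Γ) (H : AddSubgroup Γ) (T : Finset Γ),
      (d : ℝ) ≤ 30000 / ε * Real.log (2 * K) ∧
      Convex ℝ B ∧ IsCompact B ∧ (interior B).Nonempty ∧ (∀ x ∈ B, -x ∈ B) ∧
      Finite H ∧
      (({x : Fin d → ℤ | (fun i => (x i : ℝ)) ∈ B}.ncard * Nat.card H : ℕ) : ℝ) ≤
        Real.exp (30000 / ε * Real.log (2 * K) ^ (1 + ε)) * A.card ∧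
      (T.card : ℝ) ≤ (2 * K) ^ (30000 / ε) ∧
      ∀ a ∈ A, ∃ t ∈ T, ∃ x : Fin d → ℤ, (fun i => (x i : ℝ)) ∈ B ∧
        ∃ h ∈ H, a = t + ψ x + h) ∧
    (∃ (k : ℕ) (v : Fin k → Γ) (L : Fin k → ℕ) (H : AddSubgroup Γ) (T : Finset Γ),
      (k : ℝ) ≤ 30000 / ε * Real.log (2 * K) ∧ Finite H ∧
      ((∏ i, (2 * L i + 1) : ℕ) : ℝ) * (Nat.card H : ℝ) ≤
        Real.exp (4000000 / ε ^ 2 * Real.log (2 * K) ^ (1 + ε)) * A.card ∧
      (T.card : ℝ) ≤ (2 * K) ^ (30000 / ε) ∧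
      ∀ a ∈ A, ∃ t ∈ T, ∃ c : Fin k → ℤ, (∀ i, |c i| ≤ L i) ∧
        ∃ h ∈ H, a = t + ∑ i, c i • v i + h) := by
  refine ⟨?_, W860.OB.gap_cover hA hK hε0 hε1⟩
  obtain ⟨d, B, ψ, H, T, hd, hB, hH, hvol, hT, hcov⟩ := W860.PC.poly_cover hA hK hε0 hε1
  exact ⟨d, B, ψ, H, T, hd, hB.1, hB.2.1, hB.2.2.1, hB.2.2.2, hH, hvol, hT, hcov⟩

end Pool.Agent.Results.MP_dd2a7c_co.PolynomialTranslates
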